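import Mathlib

/-!
# Classes modulo `ℓ`-th powers
-/

set_option autoImplicit false

namespace Pool.Agent.Helper43.TW

open Finset

universe u

/-- The group of classes of nonzero elements modulo `ℓ`-th powers, written additively. -/
def Cl (ℓ : ℕ) (K : Type u) [Field K] : Type u :=
  Additive (Kˣ ⧸ (powMonoidHom ℓ : Kˣ →* Kˣ).range)

variable {ℓ : ℕ} {K : Type u} [Field K]

noncomputable instance : AddCommGroup (Cl ℓ K) :=
  inferInstanceAs (AddCommGroup (Additive (Kˣ ⧸ (powMonoidHom ℓ : Kˣ →* Kˣ).range)))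

theorem nsmul_eq_zero (x : Cl ℓ K) : ℓ • x = 0 := by
  obtain ⟨y, hy⟩ := QuotientGroup.mk_surjective (Additive.toMul x)
  have h : (Additive.toMul x) ^ ℓ = 1 := by
    rw [← hy, ← QuotientGroup.mk_pow, QuotientGroup.eq_one_iff]
    exact ⟨y, rfl⟩
  exact congrArg Additive.ofMul h

noncomputable instance : Module (ZMod ℓ) (Cl ℓ K) := AddCommGroup.zmodModule nsmul_eq_zero

/-- The class of a unit. -/
noncomputable def ucl (x : Kˣ) : Cl ℓ K :=
  Additive.ofMul (QuotientGroup.mk x : Kˣ ⧸ (powMonoidHom ℓ : Kˣ →* Kˣ).range)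

theorem ucl_mul (x y : Kˣ) : (ucl (x * y) : Cl ℓ K) = ucl x + ucl y := rfl

theorem ucl_eq_zero (x : Kˣ) : (ucl x : Cl ℓ K) = 0 ↔ ∃ y : Kˣ, x = y ^ ℓ := by
  have h : (ucl x : Cl ℓ K) = 0 ↔
      (QuotientGroup.mk x : Kˣ ⧸ (powMonoidHom ℓ : Kˣ →* Kˣ).range) = 1 := Iff.rfl
  rw [h, QuotientGroup.eq_one_iff]
  constructor
  · rintro ⟨y, hy⟩
    exact ⟨y, hy.symm⟩
  · rintro ⟨y, hy⟩
    exact ⟨y, hy.symm⟩

open Classical in
/-- The class of an element (zero for `x = 0`). -/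
noncomputable def cl (ℓ : ℕ) (x : K) : Cl ℓ K := if h : x = 0 then 0 else ucl (Units.mk0 x h)

theorem cl_of_ne {x : K} (h : x ≠ 0) : cl ℓ x = ucl (Units.mk0 x h) := by
  rw [cl, dif_neg h]

theorem cl_mul {x y : K} (hx : x ≠ 0) (hy : y ≠ 0) : cl ℓ (x * y) = cl ℓ x + cl ℓ y := by
  rw [cl_of_ne hx, cl_of_ne hy, cl_of_ne (mul_ne_zero hx hy), ← ucl_mul]
  congr 1
  ext
  simp

theorem cl_one : cl ℓ (1 : K) = 0 := by
  have h := cl_mul (ℓ := ℓ) (one_ne_zero (α := K)) (one_ne_zero (α := K))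
  rw [one_mul] at h
  exact left_eq_add.1 h

theorem cl_inv {x : K} (hx : x ≠ 0) : cl ℓ x⁻¹ = - cl ℓ x := by
  have h := cl_mul (ℓ := ℓ) hx (inv_ne_zero hx)
  rw [mul_inv_cancel₀ hx, cl_one] at h
  exact (neg_eq_of_add_eq_zero_right h.symm).symm

theorem cl_div {x y : K} (hx : x ≠ 0) (hy : y ≠ 0) : cl ℓ (x / y) = cl ℓ x - cl ℓ y := by
  rw [div_eq_mul_inv, cl_mul hx (inv_ne_zero hy), cl_inv hy, sub_eq_add_neg]

theorem cl_pow {x : K} (hx : x ≠ 0) (m : ℕ) : cl ℓ (x ^ m) = (m : ZMod ℓ) • cl ℓ x := by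
  rw [Nat.cast_smul_eq_nsmul]
  induction m with
  | zero => rw [pow_zero, cl_one, zero_smul]
  | succ m ih => rw [pow_succ, cl_mul (pow_ne_zero _ hx) hx, ih, succ_nsmul]

theorem cl_prod {ι : Type*} (s : Finset ι) (f : ι → K) (hf : ∀ i ∈ s, f i ≠ 0) :
    cl ℓ (∏ i ∈ s, f i) = ∑ i ∈ s, cl ℓ (f i) := by
  classical
  induction s using Finset.induction_on with
  | empty => rw [prod_empty, sum_empty, cl_one]
  | insert i s hi ih =>
    rw [prod_insert hi, sum_insert hi, cl_mul (hf i (mem_insert_self i s))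
      (prod_ne_zero_iff.2 fun j hj => hf j (mem_insert_of_mem hj)),
      ih fun j hj => hf j (mem_insert_of_mem hj)]

theorem cl_pow_ell {x : K} (hx : x ≠ 0) : cl ℓ (x ^ ℓ) = 0 := by
  rw [cl_pow hx, ZMod.natCast_self, zero_smul]

theorem cl_eq_zero {x : K} (hx : x ≠ 0) : cl ℓ x = 0 ↔ ∃ y : K, x = y ^ ℓ := by
  rw [cl_of_ne hx, ucl_eq_zero]
  constructor
  · rintro ⟨y, hy⟩
    exact ⟨y, by simpa using congrArg Units.val hy⟩
  · rintro ⟨y, hy⟩
    by_cases hy0 : y = 0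
    · by_cases hℓ : ℓ = 0
      · subst hℓ
        rw [pow_zero] at hy
        exact ⟨1, Units.ext (by simp [hy])⟩
      · exact absurd (by rw [hy, hy0, zero_pow hℓ]) hx
    · exact ⟨Units.mk0 y hy0, Units.ext (by simp [hy])⟩

theorem cl_eq_iff (hℓ : ℓ ≠ 0) {x y : K} (hx : x ≠ 0) (hy : y ≠ 0) :
    cl ℓ x = cl ℓ y ↔ ∃ z : K, z ≠ 0 ∧ x = y * z ^ ℓ := by
  rw [← sub_eq_zero, ← cl_div hx hy, cl_eq_zero (div_ne_zero hx hy)]
  constructor
  · rintro ⟨z, hz⟩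
    refine ⟨z, fun h => ?_, by rw [← hz]; field_simp⟩
    rw [h, zero_pow hℓ] at hz
    exact div_ne_zero hx hy hz
  · rintro ⟨z, _, hz⟩
    exact ⟨z, by rw [hz]; field_simp⟩

theorem cl_neg_one (h : Odd ℓ) : cl ℓ (-1 : K) = 0 :=
  (cl_eq_zero (neg_ne_zero.2 one_ne_zero)).2 ⟨-1, h.neg_one_pow.symm⟩

theorem cl_neg {x : K} (hx : x ≠ 0) : cl ℓ (-x) = cl ℓ x + cl ℓ (-1 : K) := by
  rw [← cl_mul hx (neg_ne_zero.2 one_ne_zero)]
  congr 1
  ring

theorem cl_surj (c : Cl ℓ K) : ∃ x : K, x ≠ 0 ∧ cl ℓ x = c := by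
  obtain ⟨y, hy⟩ := QuotientGroup.mk_surjective (Additive.toMul c)
  refine ⟨y, y.ne_zero, ?_⟩
  rw [cl_of_ne y.ne_zero, Units.mk0_val]
  exact congrArg Additive.ofMul hy

/-- The additive map induced by a homomorphism of unit groups. -/
noncomputable def clMap {A : Type*} [AddCommGroup A] (f : Kˣ →* Multiplicative A)
    (hf : ∀ x, f (x ^ ℓ) = 1) : Cl ℓ K →+ A :=
  AddMonoidHom.mk' (fun x => Multiplicative.toAdd (QuotientGroup.lift
    (powMonoidHom ℓ : Kˣ →* Kˣ).range f (by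
      rintro x ⟨y, rfl⟩
      exact hf y) (Additive.toMul x)))
    (fun x y => congrArg Multiplicative.toAdd (map_mul _ (Additive.toMul x) (Additive.toMul y)))

theorem clMap_ucl {A : Type*} [AddCommGroup A] (f : Kˣ →* Multiplicative A)
    (hf : ∀ x, f (x ^ ℓ) = 1) (x : Kˣ) :
    clMap f hf (ucl x : Cl ℓ K) = Multiplicative.toAdd (f x) := rfl

section Norm

variable (k : Type u) [Field k] (L : Type u) [Field L] [Algebra k L] [FiniteDimensional k L]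

/-- The norm on classes. -/
noncomputable def nmU (ℓ : ℕ) : Lˣ →* Multiplicative (Cl ℓ k) where
  toFun x := Multiplicative.ofAdd (ucl (Units.map (Algebra.norm k : L →* k) x))
  map_one' := by
    rw [map_one]
    rfl
  map_mul' x y := by
    rw [map_mul]
    rfl

/-- The norm on classes. -/
noncomputable def nmC (ℓ : ℕ) : Cl ℓ L →+ Cl ℓ k :=
  clMap (nmU k L ℓ) (fun x => by
    rw [map_pow]
    exact congrArg Multiplicative.ofAdd (nsmul_eq_zero _))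

theorem nmC_cl {x : L} (hx : x ≠ 0) : nmC k L ℓ (cl ℓ x) = cl ℓ (Algebra.norm k x) := by
  rw [cl_of_ne hx, cl_of_ne (Algebra.norm_ne_zero_iff.2 hx)]
  rw [nmC, clMap_ucl]
  change ucl _ = ucl _
  congr 1
  ext
  rfl

theorem nmC_smul (c : ZMod ℓ) (x : Cl ℓ L) : nmC k L ℓ (c • x) = c • nmC k L ℓ x :=
  ZMod.map_smul (nmC k L ℓ) c x

theorem nmC_algebraMap {x : k} (hx : x ≠ 0) : nmC k L ℓ (cl ℓ (algebraMap k L x)) =
    (Module.finrank k L : ZMod ℓ) • cl ℓ x := by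
  rw [nmC_cl k L (by simpa using hx), Algebra.norm_algebraMap, cl_pow hx]

end Norm

end Pool.Agent.Helper43.TW
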