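import Pool.Agent.Helper54.PT.DefsC
import Pool.Agent.Helper43.TW.Cl

/-!
# The valuation modulo `ℓ` on classes
-/

set_option autoImplicit false

namespace Pool.Agent.Helper43.TW

open Finset Pool.Agent.Helper54.PT

universe u

section

variable {k : Type u} [NormedField k] {ℓ : ℕ} {π : k} (hk : LF ℓ π)

include hk in
theorem pi_ne : π ≠ 0 := norm_pos_iff.1 hk.pos

include hk in
theorem zpow_pi_inj {m m' : ℤ} (h : ‖π‖ ^ m = ‖π‖ ^ m') : m = m' :=
  zpow_right_injective₀ hk.pos hk.lt_one.ne h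

/-- The valuation modulo `ℓ` on units. -/
noncomputable def nuU : kˣ →* Multiplicative (ZMod ℓ) where
  toFun x := Multiplicative.ofAdd (((hk.disc x x.ne_zero).choose : ℤ) : ZMod ℓ)
  map_one' := by
    have h := (hk.disc ((1 : kˣ) : k) (1 : kˣ).ne_zero).choose_spec
    have h2 : (hk.disc ((1 : kˣ) : k) (1 : kˣ).ne_zero).choose = 0 := by
      apply zpow_pi_inj hk
      rw [← h]
      simp
    rw [h2]
    simp
  map_mul' x y := by
    have h1 := (hk.disc (x : k) x.ne_zero).choose_spec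
    have h2 := (hk.disc (y : k) y.ne_zero).choose_spec
    have h3 := (hk.disc ((x * y : kˣ) : k) (x * y).ne_zero).choose_spec
    have h4 : (hk.disc ((x * y : kˣ) : k) (x * y).ne_zero).choose =
        (hk.disc (x : k) x.ne_zero).choose + (hk.disc (y : k) y.ne_zero).choose := by
      apply zpow_pi_inj hk
      rw [← h3, zpow_add₀ hk.pos.ne', ← h1, ← h2, Units.val_mul, norm_mul]
    rw [h4, Int.cast_add, ofAdd_add]

/-- The valuation modulo `ℓ` on classes. -/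
noncomputable def nu : Cl ℓ k →+ ZMod ℓ :=
  clMap (nuU hk) (fun x => by
    rw [map_pow]
    refine Multiplicative.toAdd.injective ?_
    rw [toAdd_pow, toAdd_one, nsmul_eq_mul, ZMod.natCast_self, zero_mul])

theorem nu_cl {x : k} (hx : x ≠ 0) {m : ℤ} (h : ‖x‖ = ‖π‖ ^ m) : nu hk (cl ℓ x) = (m : ZMod ℓ) := by
  rw [cl_of_ne hx, nu, clMap_ucl]
  have h2 := (hk.disc ((Units.mk0 x hx : kˣ) : k) (Units.mk0 x hx).ne_zero).choose_spec
  have h3 : (hk.disc ((Units.mk0 x hx : kˣ) : k) (Units.mk0 x hx).ne_zero).choose = m := by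
    apply zpow_pi_inj hk
    rw [← h2, ← h]
    rfl
  change (((hk.disc ((Units.mk0 x hx : kˣ) : k) (Units.mk0 x hx).ne_zero).choose : ℤ) : ZMod ℓ) = m
  rw [h3]

theorem nu_unit {x : k} (h : ‖x‖ = 1) : nu hk (cl ℓ x) = 0 := by
  have hx : x ≠ 0 := by
    rintro rfl
    simp at h
  rw [nu_cl hk hx (m := 0) (by rw [h, zpow_zero]), Int.cast_zero]

theorem nu_smul (c : ZMod ℓ) (x : Cl ℓ k) : nu hk (c • x) = c * nu hk x := by
  rw [ZMod.map_smul (nu hk) c x, smul_eq_mul]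

theorem nu_eq_zero_iff {x : k} (hx : x ≠ 0) : nu hk (cl ℓ x) = 0 ↔
    ∃ z : k, z ≠ 0 ∧ ‖x‖ = ‖z‖ ^ ℓ := by
  constructor
  · intro h
    obtain ⟨m, hm⟩ := hk.disc x hx
    rw [nu_cl hk hx hm, ZMod.intCast_zmod_eq_zero_iff_dvd] at h
    obtain ⟨n, rfl⟩ := h
    refine ⟨π ^ n, zpow_ne_zero _ (pi_ne hk), ?_⟩
    rw [hm, norm_zpow, ← zpow_natCast, ← zpow_mul, mul_comm]
  · rintro ⟨z, hz, h⟩
    obtain ⟨m, hm⟩ := hk.disc z hz
    rw [nu_cl hk hx (m := ℓ * m) (by
      rw [h, hm, ← zpow_natCast, ← zpow_mul, mul_comm])]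
    simp

end

end Pool.Agent.Helper43.TW
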