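import Pool.Agent.Helper43.TW.Nu
import Pool.Agent.Helper57.TW.C1
import Pool.Agent.Helper2.TW.C2a

/-!
# C2b : norms of units
-/

set_option autoImplicit false

namespace Pool.Agent.Helper54.PT

open Finset Module Pool.Agent.Helper47.BSD Pool.Agent.Helper43.TW

universe u

section

variable {k : Type u} [NontriviallyNormedField k] [IsUltrametricDist k] [CompleteSpace k]
  {ℓ : ℕ} {π : k}

omit [IsUltrametricDist k] [CompleteSpace k] in
theorem nu_le_pi (hk : LF ℓ π) {x : k} (h : ‖x‖ < 1) : ‖x‖ ≤ ‖π‖ := by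
  by_cases hx : x = 0
  · rw [hx, norm_zero]
    exact hk.pos.le
  · obtain ⟨m, hm⟩ := hk.disc x hx
    rw [hm] at h ⊢
    have h1 : 0 < m := by
      by_contra h2
      rw [not_lt] at h2
      exact absurd h (not_lt.2 (one_le_zpow_of_nonpos₀ hk.pos hk.lt_one.le h2))
    calc ‖π‖ ^ m ≤ ‖π‖ ^ (1 : ℤ) := zpow_le_zpow_right_of_le_one₀ hk.pos hk.lt_one.le h1
      _ = ‖π‖ := zpow_one _

omit [IsUltrametricDist k] [CompleteSpace k] in
theorem nu_cover (hk : LF ℓ π) (m : ℕ) :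
    ∃ S : Finset k, ∀ x : k, ‖x‖ ≤ 1 → ∃ s ∈ S, ‖x - s‖ ≤ ‖π‖ ^ m := by
  classical
  obtain ⟨R, hR⟩ := hk.fin
  induction m with
  | zero => exact ⟨{0}, fun x hx => ⟨0, mem_singleton_self _, by simpa using hx⟩⟩
  | succ m ih =>
    obtain ⟨S, hS⟩ := ih
    refine ⟨(S ×ˢ R).image fun p => p.1 + π ^ m * p.2, fun x hx => ?_⟩
    obtain ⟨s, hs, hxs⟩ := hS x hx
    have hπ : π ^ m ≠ 0 := pow_ne_zero _ (pi_ne hk)
    have h1 : ‖(x - s) / π ^ m‖ ≤ 1 := by
      rw [norm_div, norm_pow]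
      exact (div_le_one (pow_pos hk.pos _)).2 hxs
    obtain ⟨r, hr, hxr⟩ := hR _ h1
    refine ⟨s + π ^ m * r, mem_image.2 ⟨(s, r), mem_product.2 ⟨hs, hr⟩, rfl⟩, ?_⟩
    have h2 : x - (s + π ^ m * r) = π ^ m * ((x - s) / π ^ m - r) := by
      field_simp
      ring
    rw [h2, norm_mul, norm_pow, pow_succ]
    exact mul_le_mul_of_nonneg_left (nu_le_pi hk hxr) (pow_nonneg (norm_nonneg _) _)

omit [IsUltrametricDist k] in
theorem nu_lc (hk : LF ℓ π) : LocallyCompactSpace k := by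
  have hc : IsCompact (Metric.closedBall (0 : k) 1) := by
    rw [isCompact_iff_totallyBounded_isComplete]
    refine ⟨?_, Metric.isClosed_closedBall.isComplete⟩
    rw [Metric.totallyBounded_iff]
    intro ε hε
    obtain ⟨m, hm⟩ := exists_pow_lt_of_lt_one hε hk.lt_one
    obtain ⟨S, hS⟩ := nu_cover hk m
    refine ⟨S, S.finite_toSet, fun x hx => ?_⟩
    rw [mem_closedBall_zero_iff] at hx
    obtain ⟨s, hs, hxs⟩ := hS x hx
    refine Set.mem_iUnion₂.2 ⟨s, hs, ?_⟩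
    rw [Metric.mem_ball, dist_eq_norm]
    exact lt_of_le_of_lt hxs hm
  exact hc.locallyCompactSpace_of_mem_nhds_of_addGroup (x := 0)
    (Metric.closedBall_mem_nhds 0 one_pos)

theorem nu_unit_pow (hk : LF ℓ π) {L : Type u} [Field L] [Algebra k L] [FiniteDimensional k L]
    (u : L) (hu : specAbs k L u = 1) : ∃ M : ℕ, 0 < M ∧ specAbs k L (u ^ M - 1) < 1 := by
  haveI := nu_lc hk
  letI i1 := spectralNorm.normedAddCommGroup k L
  letI i2 := spectralNorm.normedSpace k L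
  haveI : ProperSpace L := FiniteDimensional.proper k L
  have hnorm : ∀ z : L, ‖z‖ = specAbs k L z := fun z => rfl
  have h1 : ∀ i : ℕ, u ^ i ∈ Metric.closedBall (0 : L) 1 := fun i => by
    rw [mem_closedBall_zero_iff, hnorm, map_pow, hu, one_pow]
  obtain ⟨a, _, φ, hφ, hlim⟩ := (isCompact_closedBall (0 : L) 1).tendsto_subseq h1
  have hcs := hlim.cauchySeq
  rw [Metric.cauchySeq_iff] at hcs
  obtain ⟨N, hN⟩ := hcs 1 one_pos
  have h2 := hN (N + 1) (Nat.le_succ N) N le_rfl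
  have hlt : φ N < φ (N + 1) := hφ (Nat.lt_succ_self N)
  refine ⟨φ (N + 1) - φ N, Nat.sub_pos_of_lt hlt, ?_⟩
  rw [dist_eq_norm, hnorm] at h2
  simp only [Function.comp_apply] at h2
  have h3 : u ^ φ (N + 1) - u ^ φ N = u ^ φ N * (u ^ (φ (N + 1) - φ N) - 1) := by
    rw [mul_sub, ← pow_add, mul_one, Nat.add_sub_cancel' hlt.le]
  rw [h3, map_mul, map_pow, hu, one_pow, one_mul] at h2
  exact h2

/-- The degree over an intermediate field with the value group of `k`. -/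
theorem nu_dvd (hℓ : ℓ.Prime) (hk : LF ℓ π) {L : Type u} [Field L] [Algebra k L]
    [FiniteDimensional k L] (z : L) (hz : specAbs k L z ^ ℓ = ‖π‖) (E : IntermediateField k L)
    (hE : ∀ x ∈ E, x ≠ 0 → ∃ y : k, y ≠ 0 ∧ specAbs k L x = ‖y‖) : ℓ ∣ finrank E L := by
  have hz0 : z ≠ 0 := by
    rintro rfl
    rw [map_zero, zero_pow hℓ.ne_zero] at hz
    exact hk.pos.ne hz
  have hzp : 0 < specAbs k L z := (specAbs k L).pos hz0
  set z' : E := Algebra.norm E z with hz'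
  have hz'0 : z' ≠ 0 := Algebra.norm_ne_zero_iff.2 hz0
  have h1 : Algebra.norm k z' = Algebra.norm k z := Algebra.norm_norm
  have h2 : specAbs k E z' = specAbs k L (z' : L) := spectralNorm.eq_of_tower z'
  have h3 : specAbs k L (z' : L) ^ finrank k E = (specAbs k L z ^ finrank E L) ^ finrank k E := by
    rw [← h2, ← norm_norm_eq, h1, norm_norm_eq, ← pow_mul, mul_comm,
      Module.finrank_mul_finrank k E L]
  have h4 : specAbs k L (z' : L) = specAbs k L z ^ finrank E L :=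
    (pow_left_inj₀ ((specAbs k L).nonneg _) (pow_nonneg ((specAbs k L).nonneg _) _)
      (Module.finrank_pos (R := k) (M := E)).ne').1 h3
  obtain ⟨y, hy0, hy⟩ := hE z' z'.2 (by simpa using hz'0)
  obtain ⟨m, hm⟩ := hk.disc y hy0
  have h5 : ‖π‖ ^ (finrank E L : ℤ) = ‖π‖ ^ (ℓ * m : ℤ) := by
    calc ‖π‖ ^ (finrank E L : ℤ) = (specAbs k L z ^ ℓ) ^ finrank E L := by rw [hz, zpow_natCast]
      _ = (specAbs k L z ^ finrank E L) ^ ℓ := by rw [← pow_mul, ← pow_mul, mul_comm]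
      _ = ‖π‖ ^ (ℓ * m : ℤ) := by
        rw [← h4, hy, hm, ← zpow_natCast, ← zpow_mul, mul_comm]
  have h6 := zpow_pi_inj hk h5
  exact Int.natCast_dvd_natCast.1 ⟨m, h6⟩

/-- `ℓ ^ s`-th roots of one-units. -/
theorem nu_root (hℓ : ℓ.Prime) (hk : LF ℓ π) {L : Type u} [Field L] [Algebra k L]
    [FiniteDimensional k L] (s : ℕ) (z : L) (hz : specAbs k L (z - 1) < 1) :
    ∃ w : L, w ^ (ℓ ^ s) = z ∧ specAbs k L (w - 1) < 1 := by
  induction s generalizing z with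
  | zero => exact ⟨z, by rw [pow_zero, pow_one], hz⟩
  | succ s ih =>
    obtain ⟨w, hw, hw1⟩ := exists_pow_near_one' (k := k) hℓ.pos hk.norm_ell z hz
    obtain ⟨v, hv, hv1⟩ := ih w hw1
    exact ⟨v, by rw [pow_succ, pow_mul, hv, hw], hv1⟩

/-- C2b: norms of units from extensions whose ramification index is divisible by `ℓ` -/
theorem norm_unit (hℓ : ℓ.Prime) (hk : LF ℓ π) {L : Type u} [Field L] [Algebra k L]
    [FiniteDimensional k L] (z : L) (hz : specAbs k L z ^ ℓ = ‖π‖) :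
    ℓ ∣ finrank k L ∧ ∀ u : L, specAbs k L u = 1 → ∃ c : k, Algebra.norm k u = c ^ ℓ := by
  haveI : Fact ℓ.Prime := ⟨hℓ⟩
  refine ⟨?_, fun u hu => ?_⟩
  · have h1 := nu_dvd hℓ hk z hz ⊥ (fun x hx hx0 => by
      obtain ⟨y, rfl⟩ := IntermediateField.mem_bot.1 hx
      exact ⟨y, by rintro rfl; simp at hx0, specAbs_algebraMap y⟩)
    rwa [IntermediateField.finrank_bot'] at h1
  · obtain ⟨M, hM, hM1⟩ := nu_unit_pow hk u hu
    obtain ⟨s, M', hM', rfl⟩ := Nat.exists_eq_pow_mul_and_not_dvd hM.ne' ℓ hℓ.ne_one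
    have hu0 : u ≠ 0 := by
      rintro rfl
      rw [map_zero] at hu
      exact zero_ne_one hu
    obtain ⟨w, hw, hw1⟩ := nu_root hℓ hk s (u ^ (ℓ ^ s * M')) hM1
    have hw0 : w ≠ 0 := by
      rintro rfl
      rw [zero_sub, AbsoluteValue.map_neg, map_one] at hw1
      exact lt_irrefl _ hw1
    set ζ : L := u ^ M' / w with hζ
    have hζ0 : ζ ≠ 0 := div_ne_zero (pow_ne_zero _ hu0) hw0
    have hζ1 : ζ ^ (ℓ ^ s) = algebraMap k L 1 := by
      rw [hζ, div_pow, hw, ← pow_mul, mul_comm M', map_one]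
      exact div_self (pow_ne_zero _ hu0)
    have hnl : ‖((ℓ ^ s : ℕ) : k)‖ = 1 := by
      rw [Nat.cast_pow, norm_pow, hk.norm_ell, one_pow]
    have hdvd := nu_dvd hℓ hk z hz (IntermediateField.adjoin k {ζ}) (fun x hx hx0 =>
      value_group_adjoin ζ (ℓ ^ s) (pow_ne_zero _ hℓ.ne_zero) hnl 1 norm_one hζ1 x hx hx0)
    have hclζ : cl ℓ (Algebra.norm k ζ) = 0 := by
      obtain ⟨m, hm⟩ := hdvd
      rw [cl_eq_zero (Algebra.norm_ne_zero_iff.2 hζ0), Algebra.norm_eq_norm_adjoin k ζ, hm]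
      exact ⟨_, (by rw [mul_comm, pow_mul])⟩
    obtain ⟨v, hv, _⟩ := exists_pow_near_one' (k := k) hℓ.pos hk.norm_ell w hw1
    have hclw : cl ℓ w = 0 := (cl_eq_zero hw0).2 ⟨v, hv.symm⟩
    have h2 : (M' : ZMod ℓ) • cl ℓ u = cl ℓ ζ := by
      rw [← cl_pow hu0, hζ, cl_div (pow_ne_zero _ hu0) hw0, hclw, sub_zero]
    have h3 : (M' : ZMod ℓ) • cl ℓ (Algebra.norm k u) = 0 := by
      rw [← nmC_cl k L hu0, ← nmC_smul, h2, nmC_cl k L hζ0, hclζ]
    have h4 : (M' : ZMod ℓ) ≠ 0 := fun h => hM' ((ZMod.natCast_eq_zero_iff _ _).1 h)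
    exact (cl_eq_zero (Algebra.norm_ne_zero_iff.2 hu0)).1 ((smul_eq_zero.1 h3).resolve_left h4)

end

end Pool.Agent.Helper54.PT
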