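import Pool.Agent.Helper43.TW.Nu
import Pool.Agent.Helper43.TW.C2b
import Pool.Agent.Helper2.TW.C2c

/-!
# C4a : point values at a node
-/

set_option autoImplicit false

namespace Pool.Agent.Helper54.PT

open Finset Module Pool.Agent.Helper47.BSD Pool.Agent.Helper43.TW

universe u

section

variable {k : Type u} [NontriviallyNormedField k] [IsUltrametricDist k] [CompleteSpace k]
  {ℓ : ℕ} {π : k} {ι : Type} [Fintype ι] [DecidableEq ι] {a : ι → ℕ}

theorem pn_near {L : Type u} [Field L] [Algebra k L] [FiniteDimensional k L]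
    (hℓ0 : 0 < ℓ) (hℓ : ‖(ℓ : k)‖ = 1) {X Y : L} (hY : Y ≠ 0)
    (h : specAbs k L (X - Y) < specAbs k L Y) :
    X ≠ 0 ∧ specAbs k L X = specAbs k L Y ∧ cl ℓ X = cl ℓ Y := by
  have hY' : 0 < specAbs k L Y := (specAbs k L).pos hY
  have habs : specAbs k L X = specAbs k L Y := by
    have h1 : specAbs k L (-(X - Y)) < specAbs k L Y := by rwa [AbsoluteValue.map_neg]
    have h2 := abs_sub_eq (N := specAbs k L) (specAbs_add_le (k := k)) h1
    rw [← h2]
    congr 1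
    ring
  have hX : X ≠ 0 := by
    intro h0
    rw [h0, map_zero] at habs
    exact hY'.ne habs
  refine ⟨hX, habs, ?_⟩
  have h1 : specAbs k L (X / Y - 1) < 1 := by
    have h2 : X / Y - 1 = (X - Y) / Y := by field_simp
    rw [h2, map_div₀]
    exact (div_lt_one hY').2 h
  obtain ⟨w, hw, _⟩ := exists_pow_near_one' (k := k) hℓ0 hℓ (X / Y) h1
  rw [← sub_eq_zero, ← cl_div hX hY, cl_eq_zero (div_ne_zero hX hY)]
  exact ⟨w, hw.symm⟩

omit [IsUltrametricDist k] [CompleteSpace k] in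
theorem pn_core (hℓ : ℓ.Prime) (hk : LF ℓ π) (ha : ∀ i, ¬ ℓ ∣ a i)
    (e : ι → k) (i₁ i₂ : ι) (hne : i₁ ≠ i₂)
    (h2 : ∀ i j, i ≠ j → s(i, j) ≠ s(i₁, i₂) → ‖e i - e j‖ = 1) (h3 : ‖e i₁ - e i₂‖ = ‖π‖)
    (d : ι → kˣ) (hA : ∀ j, j ≠ i₁ → j ≠ i₂ → nu hk (cl ℓ (d j : k)) = 0)
    (hR : ∑ j, (a j : ZMod ℓ) • cl ℓ (d j : k) = 0)
    (hB : cl ℓ (d i₁ : k) - cl ℓ (d i₂ : k) = -((nu hk (cl ℓ (d i₂ : k)) * (a i₁ : ZMod ℓ)⁻¹) •
      (((a i₁ : ZMod ℓ) + a i₂) • cl ℓ (e i₁ - e i₂) +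
        ∑ m ∈ (univ.erase i₁).erase i₂, (a m : ZMod ℓ) • cl ℓ (e i₁ - e m)))) :
    ∃ (c : ℕ) (w : ι → k), (∀ j, (d j : k) = tt ℓ a e i₁ j ^ c * w j) ∧
      (∀ j, ∃ x : k, x ≠ 0 ∧ ‖w j‖ = ‖x‖ ^ ℓ) ∧ ∃ x : k, w i₁ = w i₂ * x ^ ℓ := by
  haveI : Fact ℓ.Prime := ⟨hℓ⟩
  have haz : ∀ i, (a i : ZMod ℓ) ≠ 0 := fun i h => ha i ((ZMod.natCast_eq_zero_iff _ _).1 h)
  have hene : ∀ m, m ≠ i₁ → e i₁ - e m ≠ 0 := by
    intro m hm h0
    by_cases hm2 : m = i₂
    · subst hm2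
      rw [h0, norm_zero] at h3
      exact hk.pos.ne h3
    · have h4 := h2 i₁ m (Ne.symm hm) (by
        intro h
        rw [Sym2.eq_iff] at h
        rcases h with ⟨_, h⟩ | ⟨h, _⟩
        · exact hm2 h
        · exact hne h)
      rw [h0, norm_zero] at h4
      exact zero_ne_one h4
  have hprod : (∏ m ∈ univ.erase i₁, (e i₁ - e m) ^ a m) ≠ 0 :=
    prod_ne_zero_iff.2 fun m hm => pow_ne_zero _ (hene m (ne_of_mem_erase hm))
  have hT0 : ∀ j, tt ℓ a e i₁ j ≠ 0 := by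
    intro j
    rw [tt]
    split_ifs with h
    · exact inv_ne_zero (pow_ne_zero _ hprod)
    · exact hene j h
  have hTj : ∀ j, j ≠ i₁ → tt ℓ a e i₁ j = e i₁ - e j := fun j hj => by rw [tt, if_neg hj]
  have hinva : ((inva ℓ (a i₁) : ℕ) : ZMod ℓ) = (a i₁ : ZMod ℓ)⁻¹ := by
    rw [inva, ZMod.natCast_val, ZMod.cast_id]
  have herase : univ.erase i₁ = insert i₂ ((univ.erase i₁).erase i₂) := by
    rw [insert_erase (mem_erase.2 ⟨hne.symm, mem_univ _⟩)]
  have hT1 : cl ℓ (tt ℓ a e i₁ i₁) = -((a i₁ : ZMod ℓ)⁻¹ • ((a i₂ : ZMod ℓ) • cl ℓ (e i₁ - e i₂) +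
      ∑ m ∈ (univ.erase i₁).erase i₂, (a m : ZMod ℓ) • cl ℓ (e i₁ - e m))) := by
    rw [tt, if_pos rfl, cl_inv (pow_ne_zero _ hprod), cl_pow hprod, hinva,
      cl_prod _ _ fun m hm => pow_ne_zero _ (hene m (ne_of_mem_erase hm))]
    have h5 : ∑ m ∈ univ.erase i₁, cl ℓ ((e i₁ - e m) ^ a m) =
        ∑ m ∈ univ.erase i₁, (a m : ZMod ℓ) • cl ℓ (e i₁ - e m) :=
      sum_congr rfl fun m hm => cl_pow (hene m (ne_of_mem_erase hm)) _
    rw [h5, herase, sum_insert (notMem_erase _ _), ← herase]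
  set c : ZMod ℓ := nu hk (cl ℓ (d i₂ : k)) with hc
  have hcv : ((c.val : ℕ) : ZMod ℓ) = c := by rw [ZMod.natCast_val, ZMod.cast_id]
  have hw0 : ∀ j, (d j : k) / tt ℓ a e i₁ j ^ c.val ≠ 0 := fun j =>
    div_ne_zero (d j).ne_zero (pow_ne_zero _ (hT0 j))
  have hclw : ∀ j, cl ℓ ((d j : k) / tt ℓ a e i₁ j ^ c.val) =
      cl ℓ (d j : k) - c • cl ℓ (tt ℓ a e i₁ j) := fun j => by
    rw [cl_div (d j).ne_zero (pow_ne_zero _ (hT0 j)), cl_pow (hT0 j), hcv]
  have hE : nu hk (cl ℓ (e i₁ - e i₂)) = 1 := by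
    rw [nu_cl hk (hene i₂ hne.symm) (m := 1) (by rw [h3, zpow_one]), Int.cast_one]
  have hEj : ∀ m, m ≠ i₁ → m ≠ i₂ → nu hk (cl ℓ (e i₁ - e m)) = 0 := fun m hm hm2 =>
    nu_unit hk (h2 i₁ m (Ne.symm hm) (by
        intro h
        rw [Sym2.eq_iff] at h
        rcases h with ⟨_, h⟩ | ⟨h, _⟩
        · exact hm2 h
        · exact hne h))
  have hsum0 : nu hk (∑ m ∈ (univ.erase i₁).erase i₂, (a m : ZMod ℓ) • cl ℓ (e i₁ - e m)) = 0 := by
    rw [map_sum]
    refine sum_eq_zero fun m hm => ?_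
    rw [mem_erase, mem_erase] at hm
    rw [nu_smul, hEj m hm.2.1 hm.1, mul_zero]
  refine ⟨c.val, fun j => (d j : k) / tt ℓ a e i₁ j ^ c.val, fun j => ?_, fun j => ?_, ?_⟩
  · rw [mul_div_cancel₀ _ (pow_ne_zero _ (hT0 j))]
  · rw [← nu_eq_zero_iff hk (hw0 j), hclw j, map_sub, nu_smul]
    by_cases hj1 : j = i₁
    · subst hj1
      rw [hT1, map_neg, nu_smul, map_add, nu_smul, hE, hsum0]
      have h6 : nu hk (∑ m, (a m : ZMod ℓ) • cl ℓ (d m : k)) = 0 := by rw [hR, map_zero]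
      rw [map_sum, ← add_sum_erase univ _ (mem_univ j), herase, sum_insert (notMem_erase _ _),
        sum_eq_zero (s := (univ.erase j).erase i₂) (fun m hm => by
          rw [mem_erase, mem_erase] at hm
          rw [nu_smul, hA m hm.2.1 hm.1, mul_zero]), nu_smul, nu_smul, ← hc] at h6
      have h7 := haz j
      field_simp
      linear_combination h6
    · by_cases hj2 : j = i₂
      · subst hj2
        rw [hTj j hj1, hE, ← hc]
        ring
      · rw [hTj j hj1, hEj j hj1 hj2, hA j hj1 hj2]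
        ring
  · have h8 : cl ℓ ((d i₁ : k) / tt ℓ a e i₁ i₁ ^ c.val) =
        cl ℓ ((d i₂ : k) / tt ℓ a e i₁ i₂ ^ c.val) := by
      rw [hclw, hclw, hTj i₂ hne.symm, hT1]
      have h7 := haz i₁
      set S := ∑ m ∈ (univ.erase i₁).erase i₂, (a m : ZMod ℓ) • cl ℓ (e i₁ - e m) with hS
      have h9 : cl ℓ (d i₁ : k) = cl ℓ (d i₂ : k) + -((c * (a i₁ : ZMod ℓ)⁻¹) •
          (((a i₁ : ZMod ℓ) + a i₂) • cl ℓ (e i₁ - e i₂) + S)) := by
        rw [← hB]
        abel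
      rw [h9]
      have h10 : c * (a i₁ : ZMod ℓ)⁻¹ * (a i₁ : ZMod ℓ) = c := by
        rw [mul_assoc, inv_mul_cancel₀ h7, mul_one]
      have h11 : (c * (a i₁ : ZMod ℓ)⁻¹) • (((a i₁ : ZMod ℓ) + a i₂) • cl ℓ (e i₁ - e i₂) + S) =
          c • cl ℓ (e i₁ - e i₂) + (c * (a i₁ : ZMod ℓ)⁻¹) •
            ((a i₂ : ZMod ℓ) • cl ℓ (e i₁ - e i₂) + S) := by
        rw [smul_add, smul_add, smul_smul, smul_smul, mul_add, add_smul, h10]
        abel
      rw [h11, smul_neg, smul_smul]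
      abel
    obtain ⟨z, _, hz⟩ := (cl_eq_iff hℓ.ne_zero (hw0 i₁) (hw0 i₂)).1 h8
    exact ⟨z, hz⟩

theorem pn_two : ∀ u : ZMod 2, u ≠ 0 → u = 1 := by decide

theorem pn_two' : (1 : ZMod 2) + 1 = 0 := by decide

theorem pn_smul [Fact ℓ.Prime] {M : Type*} [AddCommGroup M] [Module (ZMod ℓ) M] (c n : ZMod ℓ)
    (hc : c ≠ 0) (v : M) : c • ((n * c⁻¹) • v) = n • v := by
  rw [smul_smul]
  congr 1
  field_simp

/-- C4a: point values at a node -/
theorem point_node (hℓ : ℓ.Prime) (hk : LF ℓ π) (ha : ∀ i, ¬ ℓ ∣ a i) (hs : ¬ ℓ ∣ ∑ i, a i)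
    (e : ι → k) (i₁ i₂ : ι) (hne : i₁ ≠ i₂) (h1 : ∀ i, ‖e i‖ ≤ 1)
    (h2 : ∀ i j, i ≠ j → s(i, j) ≠ s(i₁, i₂) → ‖e i - e j‖ = 1) (h3 : ‖e i₁ - e i₂‖ = ‖π‖)
    (d : ι → kˣ) (hd : IsPointValue ℓ a e d) :
    ∃ (c : ℕ) (w : ι → k), (∀ j, (d j : k) = tt ℓ a e i₁ j ^ c * w j) ∧
      (∀ j, ∃ x : k, x ≠ 0 ∧ ‖w j‖ = ‖x‖ ^ ℓ) ∧ ∃ x : k, w i₁ = w i₂ * x ^ ℓ := by
  haveI : Fact ℓ.Prime := ⟨hℓ⟩
  have haz : ∀ i, (a i : ZMod ℓ) ≠ 0 := fun i h => ha i ((ZMod.natCast_eq_zero_iff _ _).1 h)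
  have hsz : (∑ i, (a i : ZMod ℓ)) ≠ 0 := fun h => hs ((ZMod.natCast_eq_zero_iff _ _).1 (by
    rw [Nat.cast_sum]; exact h))
  obtain ⟨L, _, _, _, x, y, hy, hxy, hd⟩ := hd
  set X : ι → L := fun j => x - algebraMap k L (e j) with hXdef
  have hX0 : ∀ j, X j ≠ 0 := fun j h => by
    have h4 : y ^ ℓ = 0 := by
      rw [hxy]
      exact prod_eq_zero (mem_univ j) (by
        rw [show x - algebraMap k L (e j) = 0 from h, zero_pow (fun h => ha j (by rw [h]; exact dvd_zero _))])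
    exact hy (pow_eq_zero_iff hℓ.ne_zero |>.1 h4)
  have hXX : ∀ i j, X j = X i + algebraMap k L (e i - e j) := fun i j => by
    simp only [hXdef, map_sub]
    ring
  have hDN : ∀ j, cl ℓ (d j : k) = nmC k L ℓ (cl ℓ (X j)) := fun j => by
    rw [nmC_cl k L (hX0 j), hd j]
  have hdn : ∀ j, ‖(d j : k)‖ = specAbs k L (X j) ^ finrank k L := fun j => by
    rw [hd j, norm_norm_eq]
  have hrel : ∑ j, (a j : ZMod ℓ) • cl ℓ (X j) = 0 := by
    rw [← cl_pow_ell hy, hxy, cl_prod _ _ fun j _ => pow_ne_zero _ (hX0 j)]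
    exact sum_congr rfl fun j _ => (cl_pow (hX0 j) _).symm
  have hR : ∑ j, (a j : ZMod ℓ) • cl ℓ (d j : k) = 0 := by
    have h4 : nmC k L ℓ (∑ j, (a j : ZMod ℓ) • cl ℓ (X j)) = 0 := by rw [hrel, map_zero]
    rw [map_sum] at h4
    rw [← h4]
    exact sum_congr rfl fun j _ => by rw [nmC_smul, hDN j]
  have hneA : ∀ i j, i ≠ j → s(i, j) ≠ s(i₁, i₂) → specAbs k L (algebraMap k L (e i - e j)) = 1 :=
    fun i j hij h => by rw [specAbs_algebraMap, h2 i j hij h]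
  have h12 : specAbs k L (algebraMap k L (e i₁ - e i₂)) = ‖π‖ := by rw [specAbs_algebraMap, h3]
  have h21 : specAbs k L (algebraMap k L (e i₂ - e i₁)) = ‖π‖ := by
    rw [specAbs_algebraMap, norm_sub_rev, h3]
  have hsym1 : ∀ m, m ≠ i₁ → m ≠ i₂ → s(i₁, m) ≠ s(i₁, i₂) := fun m hm hm2 h => by
    rw [Sym2.eq_iff] at h
    rcases h with ⟨_, h⟩ | ⟨h, _⟩
    · exact hm2 h
    · exact hne h
  have hsym2 : ∀ m j, m ≠ i₁ → m ≠ i₂ → s(m, j) ≠ s(i₁, i₂) := fun m j hm hm2 h => by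
    rw [Sym2.eq_iff] at h
    rcases h with ⟨h, _⟩ | ⟨h, _⟩
    · exact hm h
    · exact hm2 h
  have hsym3 : ∀ m, m ≠ i₁ → m ≠ i₂ → s(i₂, m) ≠ s(i₁, i₂) := fun m hm hm2 h => by
    rw [Sym2.eq_iff] at h
    rcases h with ⟨_, h⟩ | ⟨_, h⟩
    · exact hm2 h
    · exact hm h
  have hℓ0 := hℓ.pos
  have hnear := fun (X Y : L) (hY : Y ≠ 0) (h : specAbs k L (X - Y) < specAbs k L Y) =>
    pn_near (k := k) hℓ0 hk.norm_ell hY h
  have hA1 : ∀ j, specAbs k L (X j) = 1 → nu hk (cl ℓ (d j : k)) = 0 := fun j hj =>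
    nu_unit hk (by rw [hdn j, hj, one_pow])
  have hmapne : ∀ u : k, u ≠ 0 → algebraMap k L u ≠ 0 := fun u hu => (map_ne_zero _).2 hu
  have hene : e i₁ - e i₂ ≠ 0 := by
    intro h0
    rw [h0, norm_zero] at h3
    exact hk.pos.ne h3
  have hene' : e i₂ - e i₁ ≠ 0 := by
    intro h0
    apply hene
    rw [← neg_sub, h0, neg_zero]
  have henj : ∀ m, m ≠ i₁ → m ≠ i₂ → e i₁ - e m ≠ 0 := fun m hm hm2 h0 => by
    have h4 := h2 i₁ m (Ne.symm hm) (hsym1 m hm hm2)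
    rw [h0, norm_zero] at h4
    exact zero_ne_one h4
  have hC1 : ∀ m, m ∈ (univ.erase i₁).erase i₂ → m ≠ i₁ ∧ m ≠ i₂ := fun m hm => by
    rw [mem_erase, mem_erase] at hm
    exact ⟨hm.2.1, hm.1⟩
  have hNX : ∀ j, nu hk (cl ℓ (d j : k)) = 0 → nu hk (cl ℓ (d j : k)) = 0 := fun _ h => h
  set C1 := ∑ m ∈ (univ.erase i₁).erase i₂, (a m : ZMod ℓ) • cl ℓ (e i₁ - e m) with hC1def
  have herase : univ.erase i₁ = insert i₂ ((univ.erase i₁).erase i₂) := by
    rw [insert_erase (mem_erase.2 ⟨hne.symm, mem_univ _⟩)]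
  have hsplit : ∀ {M : Type u} [AddCommGroup M] (f : ι → M), ∑ j, f j =
      f i₁ + (f i₂ + ∑ m ∈ (univ.erase i₁).erase i₂, f m) := fun {M} _ f => by
    rw [← add_sum_erase univ f (mem_univ i₁), herase, sum_insert (notMem_erase _ _), ← herase]
  suffices key : (∀ j, j ≠ i₁ → j ≠ i₂ → nu hk (cl ℓ (d j : k)) = 0) ∧
      (cl ℓ (d i₁ : k) - cl ℓ (d i₂ : k) = -((nu hk (cl ℓ (d i₂ : k)) * (a i₁ : ZMod ℓ)⁻¹) •
      (((a i₁ : ZMod ℓ) + a i₂) • cl ℓ (e i₁ - e i₂) + C1))) from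
    pn_core hℓ hk ha e i₁ i₂ hne h2 h3 d key.1 hR key.2
  -- a convenient form of the second condition when `ν = 0`
  have hB0 : cl ℓ (d i₁ : k) = cl ℓ (d i₂ : k) → nu hk (cl ℓ (d i₂ : k)) = 0 →
      (cl ℓ (d i₁ : k) - cl ℓ (d i₂ : k) = -((nu hk (cl ℓ (d i₂ : k)) * (a i₁ : ZMod ℓ)⁻¹) •
      (((a i₁ : ZMod ℓ) + a i₂) • cl ℓ (e i₁ - e i₂) + C1))) := fun h4 h5 => by
    rw [h4, h5, sub_self, zero_mul, zero_smul, neg_zero]
  by_cases hx1 : 1 < specAbs k L x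
  · -- all classes are trivial
    have hx0 : x ≠ 0 := by
      rintro rfl
      rw [map_zero] at hx1
      exact absurd hx1 (by norm_num)
    have hXx : ∀ j, cl ℓ (X j) = cl ℓ x := fun j => (hnear (X j) x hx0 (by
      have h4 : X j - x = -algebraMap k L (e j) := by simp only [hXdef]; ring
      rw [h4, AbsoluteValue.map_neg, specAbs_algebraMap]
      exact lt_of_le_of_lt (h1 j) hx1)).2.2
    have hx : cl ℓ x = 0 := by
      have h4 := hrel
      simp only [hXx] at h4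
      rw [← sum_smul] at h4
      exact (smul_eq_zero.1 h4).resolve_left hsz
    have hD : ∀ j, cl ℓ (d j : k) = 0 := fun j => by rw [hDN j, hXx j, hx, map_zero]
    exact ⟨fun j _ _ => by rw [hD j, map_zero], hB0 (by rw [hD, hD]) (by rw [hD, map_zero])⟩
  rw [not_lt] at hx1
  have hle : ∀ j, specAbs k L (X j) ≤ 1 := fun j => by
    have h4 := specAbs_add_le (k := k) x (-algebraMap k L (e j))
    rw [← sub_eq_add_neg, AbsoluteValue.map_neg, specAbs_algebraMap] at h4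
    exact h4.trans (max_le hx1 (h1 j))
  by_cases hi2 : specAbs k L (X i₂) = 1
  · -- `x` is not close to `e i₁`
    have h4 := hnear (X i₁) (X i₂) (hX0 i₂) (by
      rw [hXX i₂ i₁, add_sub_cancel_left, h21, hi2]
      exact hk.lt_one)
    refine ⟨fun j hj1 hj2 => ?_, hB0 (by rw [hDN, hDN, h4.2.2]) (hA1 i₂ hi2)⟩
    rcases (hle j).lt_or_eq with hlt | heq
    · have hall : ∀ m, m ≠ j → nu hk (cl ℓ (d m : k)) = 0 := fun m hm => hA1 m (by
        have h5 := hneA j m (Ne.symm hm) (hsym2 j m hj1 hj2)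
        have h6 : algebraMap k L (e j - e m) ≠ 0 := by
          intro h0
          rw [h0, map_zero] at h5
          exact zero_ne_one h5
        have h7 := hnear (X m) (algebraMap k L (e j - e m)) h6 (by
          rw [hXX j m, add_sub_cancel_right, h5]
          exact hlt)
        rw [h7.2.1, h5])
      have h8 : nu hk (∑ m, (a m : ZMod ℓ) • cl ℓ (d m : k)) = 0 := by rw [hR, map_zero]
      rw [map_sum, Finset.sum_eq_single j (fun m _ hm => by rw [nu_smul, hall m hm, mul_zero])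
        (fun h => absurd (mem_univ j) h), nu_smul] at h8
      exact (mul_eq_zero.1 h8).resolve_left (haz j)
    · exact hA1 j heq
  -- `x` is close to `e i₁` and `e i₂`
  have hi2' : specAbs k L (X i₂) < 1 := lt_of_le_of_ne (hle i₂) hi2
  have hi1' : specAbs k L (X i₁) < 1 := by
    rw [hXX i₂ i₁]
    refine lt_of_le_of_lt (specAbs_add_le (k := k) _ _) (max_lt hi2' ?_)
    rw [h21]
    exact hk.lt_one
  have hj : ∀ j, j ≠ i₁ → j ≠ i₂ → specAbs k L (X j) = 1 ∧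
      cl ℓ (X j) = cl ℓ (algebraMap k L (e i₁ - e j)) := fun j hj1 hj2 => by
    have h5 := hneA i₁ j (Ne.symm hj1) (hsym1 j hj1 hj2)
    have h7 := hnear (X j) (algebraMap k L (e i₁ - e j)) (hmapne _ (henj j hj1 hj2)) (by
      rw [hXX i₁ j, add_sub_cancel_right, h5]
      exact hi1')
    exact ⟨by rw [h7.2.1, h5], h7.2.2⟩
  refine ⟨fun j hj1 hj2 => hA1 j (hj j hj1 hj2).1, ?_⟩
  set G := ∑ m ∈ (univ.erase i₁).erase i₂, (a m : ZMod ℓ) • cl ℓ (algebraMap k L (e i₁ - e m))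
    with hG
  have hrel2 : (a i₁ : ZMod ℓ) • cl ℓ (X i₁) + ((a i₂ : ZMod ℓ) • cl ℓ (X i₂) + G) = 0 := by
    rw [← hrel, hsplit]
    congr 2
    exact sum_congr rfl fun m hm => by rw [(hj m (hC1 m hm).1 (hC1 m hm).2).2]
  have hNG : nmC k L ℓ G = (finrank k L : ZMod ℓ) • C1 := by
    rw [hG, map_sum, hC1def, smul_sum]
    exact sum_congr rfl fun m hm => by
      rw [nmC_smul, nmC_algebraMap k L (henj m (hC1 m hm).1 (hC1 m hm).2), smul_comm]
  have hRN : (a i₁ : ZMod ℓ) • cl ℓ (d i₁ : k) + ((a i₂ : ZMod ℓ) • cl ℓ (d i₂ : k) +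
      (finrank k L : ZMod ℓ) • C1) = 0 := by
    have h4 : nmC k L ℓ ((a i₁ : ZMod ℓ) • cl ℓ (X i₁) + ((a i₂ : ZMod ℓ) • cl ℓ (X i₂) + G)) = 0 := by
      rw [hrel2, map_zero]
    rw [map_add, map_add, nmC_smul, nmC_smul, ← hDN, ← hDN, hNG] at h4
    exact h4
  have hnuC1 : nu hk C1 = 0 := by
    rw [hC1def, map_sum]
    refine sum_eq_zero fun m hm => ?_
    rw [nu_smul, nu_unit hk (h2 i₁ m (Ne.symm (hC1 m hm).1) (hsym1 m (hC1 m hm).1 (hC1 m hm).2)),
      mul_zero]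
  have hnu2 : (a i₁ : ZMod ℓ) * nu hk (cl ℓ (d i₁ : k)) + (a i₂ : ZMod ℓ) * nu hk (cl ℓ (d i₂ : k)) = 0 := by
    have h4 : nu hk ((a i₁ : ZMod ℓ) • cl ℓ (d i₁ : k) + ((a i₂ : ZMod ℓ) • cl ℓ (d i₂ : k) +
      (finrank k L : ZMod ℓ) • C1)) = 0 := by rw [hRN, map_zero]
    rw [map_add, map_add, nu_smul, nu_smul, nu_smul, hnuC1, mul_zero, add_zero] at h4
    exact h4
  have hE : nu hk (cl ℓ (e i₁ - e i₂)) = 1 := by
    rw [nu_cl hk hene (m := 1) (by rw [h3, zpow_one]), Int.cast_one]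
  have ha1 := haz i₁
  have ha2 := haz i₂
  rcases lt_trichotomy (specAbs k L (X i₁)) ‖π‖ with hr | hr | hr
  · -- close to `e i₁`
    have h4 := hnear (X i₂) (algebraMap k L (e i₁ - e i₂)) (hmapne _ hene) (by
      rw [hXX i₁ i₂, add_sub_cancel_right, h12]
      exact hr)
    have hD2 : cl ℓ (d i₂ : k) = (finrank k L : ZMod ℓ) • cl ℓ (e i₁ - e i₂) := by
      rw [hDN i₂, h4.2.2, nmC_algebraMap k L hene]
    have hnu : nu hk (cl ℓ (d i₂ : k)) = (finrank k L : ZMod ℓ) := by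
      rw [hD2, nu_smul, hE, mul_one]
    rw [hnu]
    rw [hD2] at hRN ⊢
    refine smul_right_injective _ ha1 ?_
    simp only
    rw [smul_sub, eq_neg_of_add_eq_zero_left hRN, smul_neg, pn_smul _ _ ha1]
    module
  · by_cases hr2 : specAbs k L (X i₂) < ‖π‖
    · -- close to `e i₂`
      have h4 := hnear (X i₁) (algebraMap k L (e i₂ - e i₁)) (hmapne _ hene') (by
        rw [hXX i₂ i₁, add_sub_cancel_right, h21]
        exact hr2)
      have h5 := h4.2.1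
      rw [h21] at h5
      have h6 : e i₂ - e i₁ = -(e i₁ - e i₂) := by ring
      have hD1 : cl ℓ (d i₁ : k) = (finrank k L : ZMod ℓ) • (cl ℓ (e i₁ - e i₂) + cl ℓ (-1 : k)) := by
        rw [hDN i₁, h4.2.2, nmC_algebraMap k L hene', h6, cl_neg hene]
      have hm1 : ((a i₁ : ZMod ℓ) + a i₂) • cl ℓ (-1 : k) = 0 := by
        rcases hℓ.eq_two_or_odd' with h2' | hodd
        · subst h2'
          rw [pn_two _ ha1, pn_two _ ha2, pn_two', zero_smul]
        · rw [cl_neg_one hodd, smul_zero]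
      have hnu1 : nu hk (cl ℓ (d i₁ : k)) = (finrank k L : ZMod ℓ) := by
        rw [hDN i₁, h4.2.2, nmC_algebraMap k L hene', nu_smul,
          nu_cl hk hene' (m := 1) (by rw [norm_sub_rev, h3, zpow_one]), Int.cast_one, mul_one]
      have hnu : nu hk (cl ℓ (d i₂ : k)) = -((finrank k L : ZMod ℓ) * a i₁ * (a i₂ : ZMod ℓ)⁻¹) := by
        rw [hnu1] at hnu2
        field_simp
        linear_combination hnu2
      rw [hnu]
      refine smul_right_injective _ ha2 ?_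
      simp only
      have h9 : (a i₂ : ZMod ℓ) • cl ℓ (d i₂ : k) = -((a i₁ : ZMod ℓ) • cl ℓ (d i₁ : k) +
          (finrank k L : ZMod ℓ) • C1) := by
        rw [eq_neg_iff_add_eq_zero, ← hRN]
        abel
      have h10 : -((finrank k L : ZMod ℓ) * a i₁ * (a i₂ : ZMod ℓ)⁻¹) * (a i₁ : ZMod ℓ)⁻¹ =
          -((finrank k L : ZMod ℓ) * (a i₂ : ZMod ℓ)⁻¹) := by field_simp
      rw [smul_sub, h9, h10, neg_smul, neg_neg, pn_smul _ _ ha2, hD1]
      have h11 : (finrank k L : ZMod ℓ) • (((a i₁ : ZMod ℓ) + a i₂) • cl ℓ (-1 : k)) = 0 := by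
        rw [hm1, smul_zero]
      rw [← sub_eq_zero, ← h11]
      module
    · -- both at distance `‖π‖`
      have hr2' : specAbs k L (X i₂) = ‖π‖ := by
        refine le_antisymm ?_ (not_lt.1 hr2)
        rw [hXX i₁ i₂]
        refine (specAbs_add_le (k := k) _ _).trans (max_le hr.le h12.le)
      by_cases h0 : (a i₁ : ZMod ℓ) + a i₂ = 0
      · have hnu : nu hk (cl ℓ (d i₂ : k)) = (finrank k L : ZMod ℓ) := by
          rw [nu_cl hk (d i₂).ne_zero (m := (finrank k L : ℤ)) (by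
            rw [hdn i₂, hr2', zpow_natCast]), Int.cast_natCast]
        rw [hnu, h0, zero_smul, zero_add]
        refine smul_right_injective _ ha1 ?_
        simp only
        have h5 : (a i₂ : ZMod ℓ) = -(a i₁ : ZMod ℓ) := by linear_combination h0
        rw [h5] at hRN
        rw [smul_neg, pn_smul _ _ ha1, eq_neg_iff_add_eq_zero, ← hRN]
        module
      · have hℓs : ¬ ℓ ∣ a i₁ + a i₂ := fun h => h0 (by
          rw [← Nat.cast_add]
          exact (ZMod.natCast_eq_zero_iff _ _).2 h)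
        have hπL : algebraMap k L π ≠ 0 := hmapne _ (pi_ne hk)
        obtain ⟨z, hz0, hz⟩ := exists_root_of_coprime (N := specAbs k L) (s := a i₁ + a i₂) (ℓ := ℓ)
          ((Nat.Prime.coprime_iff_not_dvd hℓ).2 hℓs).symm (x := algebraMap k L π) (y := y) hπL hy (by
            rw [← map_pow, hxy, map_prod, specAbs_algebraMap, pow_add]
            have h5 : ∏ j, specAbs k L ((x - algebraMap k L (e j)) ^ a j) =
                specAbs k L (X i₁) ^ a i₁ * (specAbs k L (X i₂) ^ a i₂ *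
                  ∏ m ∈ (univ.erase i₁).erase i₂, specAbs k L (X m) ^ a m) := by
              rw [← mul_prod_erase univ _ (mem_univ i₁), herase, prod_insert (notMem_erase _ _),
                ← herase, map_pow, map_pow]
              congr 2
              exact prod_congr rfl fun m _ => map_pow _ _ _
            rw [h5, hr, hr2', prod_eq_one (fun m hm => by
              rw [(hj m (hC1 m hm).1 (hC1 m hm).2).1, one_pow]), mul_one])
        rw [specAbs_algebraMap] at hz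
        obtain ⟨hn, hu⟩ := norm_unit hℓ hk z hz.symm
        have hD0 : ∀ j, specAbs k L (X j) = ‖π‖ → cl ℓ (d j : k) = 0 := fun j hj => by
          have h6 : X j = algebraMap k L π * (X j / algebraMap k L π) := by field_simp
          have h7 : X j / algebraMap k L π ≠ 0 := div_ne_zero (hX0 j) hπL
          obtain ⟨c, hc⟩ := hu (X j / algebraMap k L π) (by
            rw [map_div₀, hj, specAbs_algebraMap, div_self hk.pos.ne'])
          rw [hDN j, h6, cl_mul hπL h7, map_add, nmC_algebraMap k L (pi_ne hk), nmC_cl k L h7,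
            (ZMod.natCast_eq_zero_iff _ _).2 hn, zero_smul, zero_add,
            (cl_eq_zero (Algebra.norm_ne_zero_iff.2 h7)).2 ⟨c, hc⟩]
        exact hB0 (by rw [hD0 i₁ hr, hD0 i₂ hr2']) (by rw [hD0 i₂ hr2', map_zero])
  · -- far from both
    have h4 := hnear (X i₂) (X i₁) (hX0 i₁) (by
      rw [hXX i₁ i₂, add_sub_cancel_left, h12]
      exact hr)
    have hD : cl ℓ (d i₁ : k) = cl ℓ (d i₂ : k) := by rw [hDN, hDN, h4.2.2]
    by_cases h0 : (a i₁ : ZMod ℓ) + a i₂ = 0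
    · have hG0 : G = 0 := by
        rw [h4.2.2, ← add_assoc, ← add_smul, h0, zero_smul, zero_add] at hrel2
        exact hrel2
      by_cases hC : C1 = 0
      · rw [hD, h0, hC, zero_smul, add_zero, smul_zero, neg_zero, sub_self]
      · set c0 : k := ∏ m ∈ (univ.erase i₁).erase i₂, (e i₁ - e m) ^ a m with hc0
        have hc0n : ∀ m ∈ (univ.erase i₁).erase i₂, (e i₁ - e m) ^ a m ≠ 0 := fun m hm =>
          pow_ne_zero _ (henj m (hC1 m hm).1 (hC1 m hm).2)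
        have hc00 : c0 ≠ 0 := prod_ne_zero_iff.2 hc0n
        have hclc0 : cl ℓ c0 = C1 := by
          rw [hc0, cl_prod _ _ hc0n]
          exact sum_congr rfl fun m hm => cl_pow (henj m (hC1 m hm).1 (hC1 m hm).2) _
        have hclG : cl ℓ (algebraMap k L c0) = G := by
          rw [hc0, map_prod, cl_prod _ _ fun m hm => hmapne _ (hc0n m hm)]
          exact sum_congr rfl fun m hm => by
            rw [map_pow, cl_pow (hmapne _ (henj m (hC1 m hm).1 (hC1 m hm).2))]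
        obtain ⟨θ, hθ⟩ := (cl_eq_zero (hmapne _ hc00)).1 (hclG.trans hG0)
        obtain ⟨v, hv0, hv⟩ := norm_unram hℓ hk c0 (by
          rw [hc0, norm_prod]
          exact prod_eq_one fun m hm => by
            rw [norm_pow, h2 i₁ m (Ne.symm (hC1 m hm).1) (hsym1 m (hC1 m hm).1 (hC1 m hm).2),
              one_pow]) (fun ⟨v, hv⟩ => hC (by
            rw [← hclc0]
            exact (cl_eq_zero hc00).2 ⟨v, hv.symm⟩)) ⟨θ, hθ.symm⟩ (X i₂) (hX0 i₂)
        rw [← hd i₂] at hv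
        exact hB0 hD ((nu_eq_zero_iff hk (d i₂).ne_zero).2 ⟨v, hv0, hv⟩)
    · refine hB0 hD ?_
      rw [hD, ← add_mul] at hnu2
      exact (mul_eq_zero.1 hnu2).resolve_left h0

end

end Pool.Agent.Helper54.PT
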